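import Pool.Agent.Helper76.TK2.StA
import Pool.Agent.Helper28.WK.M_Ta2

/-!
# Project TK2, module WD2: theorem A for the twisted path at the prime two, the interface
-/

set_option autoImplicit false

namespace Pool.Agent.Helper55.TK2

open Pool.Agent.Helper76.TK2 Pool.Agent.Helper14.CV Pool.Agent.Helper14.TT
open Pool.Agent.Helper28.WK (SymP Tw Ok symP_two)
open Pool.Agent.Helper76.TG (Wzt TAt)

private theorem Tw_append {R : Type} [AddCommGroup R] (m : ℤ) (l₁ l₂ : List ℕ)
    (G : ℤ → ℤ → R) : Tw m (l₁ ++ l₂) G = Tw m l₁ (Tw m l₂ G) := by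
  induction l₁ with
  | nil => rfl
  | cons l ls ih => simp only [List.cons_append, Tw, ih]

private theorem Tw_replicate {R : Type} [AddCommGroup R] (m : ℤ) (l n : ℕ)
    (G : ℤ → ℤ → R) : Tw m (List.replicate n l) G = (Tl l m)^[n] G := by
  induction n with
  | zero => rfl
  | succ n ih => rw [List.replicate_succ, Tw, ih, Function.iterate_succ_apply']

private theorem evXb_eq {R : Type} [AddCommGroup R] (D : ℕ) (m : ℤ) (G : ℤ → ℤ → R) (i j : ℕ) :
    evXb D m G i j = eXb D m (Tw m (List.replicate i 3 ++ List.replicate j 5) G) := by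
  simp only [evXb, Tw_append, Tw_replicate]

/-- **WD2.** -/
theorem hWd2 : StWD2 := by
  intro h D hD m M g hm hg hW hs hev
  obtain ⟨h4, -⟩ := okd_mod hD
  have hodd : Odd D := Nat.odd_iff.2 (by omega)
  have hj : jacobiSym (-1) D = -1 := by
    rw [jacobiSym.at_neg_one hodd]
    exact ZMod.χ₄_nat_three_mod_four h4
  have hw : jacobiSym (-1) D * jacobiSym 2 D ^ m = wT D m := by
    rw [hj]
    unfold wT
    ring
  simp only [Nat.cast_ofNat] at hW ⊢
  rw [hw] at hW
  rw [hj, neg_one_smul] at hs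
  have hev' : ∀ i j : ℕ, evXb D 1 g i j = 0 := by
    intro i j
    rw [evXb_eq]
    refine hev _ ?_
    intro l hl
    rcases List.mem_append.1 hl with h1 | h1
    · rw [List.eq_of_mem_replicate h1]; exact ⟨by norm_num, by norm_num⟩
    · rw [List.eq_of_mem_replicate h1]; exact ⟨by norm_num, by norm_num⟩
  obtain ⟨ψ, h1, h2⟩ := h D m M g hD hm ((symP_two 0 m g).1 hg) hW hs hev'
  exact ⟨ψ, (symP_two 0 (m - 1) ψ).2 h1, h2⟩

end Pool.Agent.Helper55.TK2
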